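import Mathlib

open Finset Filter Topology Pointwise

namespace Pool.Agent.Results.MP_b92640_nt.Exists

def et (p k : ℕ) : ℕ := 2 * p * k + k ^ 2 % p

lemma et_sidon {p : ℕ} (hp : p.Prime) (h2 : 2 < p) {a b c d : ℕ} (ha : a < p) (hb : b < p)
    (hc : c < p) (_hd : d < p) (h : et p a + et p d = et p b + et p c) : a = b ∨ a = c := by
  have : Fact p.Prime := ⟨hp⟩
  have h0 : 0 < p := by omega
  have m1 := Nat.mod_lt (a ^ 2) h0
  have m2 := Nat.mod_lt (b ^ 2) h0
  have m3 := Nat.mod_lt (c ^ 2) h0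
  have m4 := Nat.mod_lt (d ^ 2) h0
  unfold et at h
  have h1 : a + d = b + c := by
    rcases lt_trichotomy (a + d) (b + c) with h' | h' | h'
    · nlinarith [Nat.mul_le_mul_left (2 * p) (Nat.succ_le_of_lt h'), Nat.zero_le (b ^ 2 % p),
        Nat.zero_le (c ^ 2 % p)]
    · exact h'
    · nlinarith [Nat.mul_le_mul_left (2 * p) (Nat.succ_le_of_lt h'), Nat.zero_le (a ^ 2 % p),
        Nat.zero_le (d ^ 2 % p)]
  have h3 : a ^ 2 % p + d ^ 2 % p = b ^ 2 % p + c ^ 2 % p := by nlinarith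
  have h4 : (a : ZMod p) ^ 2 + d ^ 2 = b ^ 2 + c ^ 2 := by
    simpa using congrArg (Nat.cast : ℕ → ZMod p) h3
  have h5 : (a : ZMod p) + d = b + c := by exact_mod_cast congrArg (Nat.cast : ℕ → ZMod p) h1
  have h6 : (2 : ZMod p) ≠ 0 := by
    intro h
    have := Nat.le_of_dvd two_pos ((ZMod.natCast_eq_zero_iff 2 p).1 (by exact_mod_cast h))
    omega
  have h7 : (2 : ZMod p) * ((a - b) * (a - c)) = 0 := by
    linear_combination h4 + (a - b - c - d) * h5
  have inj : ∀ x y : ℕ, x < p → y < p → (x : ZMod p) - y = 0 → x = y := by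
    intro x y hx hy h
    have := (ZMod.natCast_eq_natCast_iff' x y p).1 (sub_eq_zero.1 h)
    rwa [Nat.mod_eq_of_lt hx, Nat.mod_eq_of_lt hy] at this
  rcases mul_eq_zero.1 ((mul_eq_zero.1 h7).resolve_left h6) with h | h
  · exact Or.inl (inj _ _ ha hb h)
  · exact Or.inr (inj _ _ ha hc h)

lemma et_lt {p k : ℕ} (hk : k < p) : et p k < 2 * p ^ 2 := by
  have := Nat.mod_lt (k ^ 2) (show 0 < p by omega)
  unfold et
  nlinarith

lemma et_inj {p : ℕ} (h0 : 0 < p) : Function.Injective (et p) := by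
  apply StrictMono.injective
  apply strictMono_nat_of_lt_succ
  intro k
  have := Nat.mod_lt (k ^ 2) h0
  unfold et
  nlinarith [Nat.zero_le ((k + 1) ^ 2 % p)]

lemma sumset {p : ℕ} (hp : p.Prime) (h2 : 2 < p) (c : ℕ) (R : Finset ℕ) (hR : R.card = p) :
    p ^ 2 ≤ 2 * (((range p).image fun k => c + et p k) + R).card := by
  set S := (range p).image fun k => c + et p k with hS
  have hSc : S.card = p := by
    rw [hS, card_image_of_injective _ fun x y h => et_inj hp.pos (by simpa using h), card_range]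
  have h1 := le_card_add_mul_addEnergy S R
  have h3 : addEnergy S R ≤ p ^ 2 + p ^ 2 := by
    unfold addEnergy
    rw [← card_filter_add_card_filter_not (fun x : (ℕ × ℕ) × ℕ × ℕ => x.2.1 = x.2.2)]
    apply add_le_add
    · refine (card_le_card_of_injOn (t := S ×ˢ R) (fun x => (x.1.1, x.2.1)) ?_ ?_).trans ?_
      · intro x hx
        simp only [coe_filter, mem_filter, mem_product, Set.mem_ofPred_eq] at hx
        simp [hx.1.1.1.1, hx.1.1.2.1]
      · rintro ⟨⟨a, b⟩, r, s⟩ hx ⟨⟨a', b'⟩, r', s'⟩ hy h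
        simp only [coe_filter, mem_filter, mem_product, Set.mem_ofPred_eq] at hx hy
        simp only [Prod.mk.injEq] at h ⊢
        omega
      · rw [card_product, hSc, hR, sq]
    · refine (card_le_card_of_injOn (t := R ×ˢ R) (fun x => x.2) ?_ ?_).trans ?_
      · intro x hx
        simp only [coe_filter, mem_filter, Set.mem_ofPred_eq] at hx
        exact (mem_product.1 hx.1.1).2
      · rintro ⟨⟨a, b⟩, r, s⟩ hx ⟨⟨a', b'⟩, r', s'⟩ hy h
        simp only [coe_filter, mem_filter, mem_product, Set.mem_ofPred_eq, hS, mem_image,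
          mem_range] at hx hy
        obtain ⟨⟨⟨⟨⟨i, hi, rfl⟩, j, hj, rfl⟩, -⟩, e1⟩, n1⟩ := hx
        obtain ⟨⟨⟨⟨⟨k, hk, rfl⟩, l, hl, rfl⟩, -⟩, e2⟩, -⟩ := hy
        simp only [Prod.mk.injEq] at h ⊢
        rcases et_sidon hp h2 hi hj hk hl (by omega) with rfl | rfl <;> omega
      · rw [card_product, hR, sq]
  rw [hSc, hR] at h1
  apply le_of_mul_le_mul_right _ (pow_pos hp.pos 2)
  nlinarith [Nat.mul_le_mul_left (S + R).card h3]

lemma basis (B : Set ℕ) (hB : B + B = Set.univ) (p : ℕ) :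
    ∃ R : Finset ℕ, R.card = p ∧ ∀ r ∈ R, r ∈ B ∧ r < p ^ 2 := by
  classical
  have h1 : range (p ^ 2) ⊆ (range (p ^ 2)).filter (· ∈ B) + (range (p ^ 2)).filter (· ∈ B) := by
    intro n hn
    obtain ⟨a, ha, b, hb, rfl⟩ : n ∈ B + B := hB ▸ Set.mem_univ n
    have : a + b < p ^ 2 := mem_range.1 hn
    exact add_mem_add (mem_filter.2 ⟨mem_range.2 (by omega), ha⟩)
      (mem_filter.2 ⟨mem_range.2 (by omega), hb⟩)
  have h2 := (card_le_card h1).trans card_add_le
  rw [card_range, ← sq] at h2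
  obtain ⟨R, hR, hc⟩ := exists_subset_card_eq (le_of_pow_le_pow_left₀ two_ne_zero (Nat.zero_le _) h2)
  exact ⟨R, hc, fun r hr => ⟨(mem_filter.1 (hR hr)).2, mem_range.1 (mem_filter.1 (hR hr)).1⟩⟩

open Classical in
theorem result : ∃ A : Set ℕ, 0 ∈ A ∧ A ≠ {0, 1} ∪ {p | p.Prime} ∧
    Tendsto (fun n : ℕ => (((Ioc 0 n).filter (· ∈ A)).card : ℝ) / n) atTop (𝓝 0) ∧
    ∀ B : Set ℕ, 0 ∈ B → B + B = Set.univ → 0 < schnirelmannDensity (A + B) := by
  choose! P hP h1 h2 using Nat.exists_prime_lt_and_le_two_mul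
  let S : ℕ → Finset ℕ := fun u => (range (P u)).image fun k => 4 * u ^ 3 + 1 + et (P u) k
  let A : Set ℕ := {n | n = 0 ∨ n = 4 ∨ ∃ u, 2 ≤ u ∧ n ∈ S u}
  refine ⟨A, Or.inl rfl, ?_, ?_, ?_⟩
  · intro h
    have : 4 ∈ A := Or.inr (Or.inl rfl)
    rw [h] at this
    simp only [Set.mem_union, Set.mem_insert_iff, Set.mem_singleton_iff, Set.mem_ofPred_eq] at this
    revert this
    decide
  · have hU : Tendsto (Nat.nthRoot 3) atTop atTop :=
      tendsto_atTop_atTop.2 fun b => ⟨b ^ 3, fun n hn => (Nat.le_nthRoot_iff (by norm_num)).2 hn⟩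
    refine squeeze_zero' (Eventually.of_forall fun n => by positivity) ?_
      ((tendsto_const_div_atTop_nhds_zero_nat 3).comp hU)
    filter_upwards [eventually_ge_atTop 1] with n hn
    have u1 : Nat.nthRoot 3 n ^ 3 ≤ n := (Nat.le_nthRoot_iff (by norm_num)).1 le_rfl
    have u0 : 1 ≤ Nat.nthRoot 3 n := (Nat.le_nthRoot_iff (by norm_num)).2 (by simpa using hn)
    have hs : (Ioc 0 n).filter (· ∈ A) ⊆ insert 4 ((Icc 1 (Nat.nthRoot 3 n)).biUnion S) := by
      intro m hm
      obtain ⟨m1, rfl | rfl | ⟨u, hu, hm⟩⟩ := mem_filter.1 hm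
      · simp at m1
      · simp
      · refine mem_insert_of_mem (mem_biUnion.2 ⟨u, mem_Icc.2 ⟨by omega, ?_⟩, hm⟩)
        obtain ⟨k, _, rfl⟩ := mem_image.1 hm
        have := (mem_Ioc.1 m1).2
        exact (Nat.le_nthRoot_iff (by norm_num)).2 (by omega)
    have hc := (card_le_card hs).trans (card_insert_le _ _)
    have hb : ((Icc 1 (Nat.nthRoot 3 n)).biUnion S).card ≤ Nat.nthRoot 3 n * (2 * Nat.nthRoot 3 n) := by
      refine (card_biUnion_le_card_mul _ _ _ ?_).trans (by simp; rfl)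
      intro u hu
      have := mem_Icc.1 hu
      have := h2 u (by omega)
      exact card_image_le.trans (by rw [card_range]; omega)
    simp only [Function.comp]
    generalize Nat.nthRoot 3 n = U at *
    rw [div_le_div_iff₀ (by positivity) (by positivity)]
    have : ((Ioc 0 n).filter (· ∈ A)).card * U ≤ 3 * n := by
      calc _ ≤ (U * (2 * U) + 1) * U := by gcongr; omega
        _ ≤ 3 * U ^ 3 := by nlinarith [Nat.mul_le_mul u0 u0]
        _ ≤ _ := by omega
    have := (Nat.cast_le (α := ℝ)).2 this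
    push_cast at this
    convert this
    rfl
  · intro B _ hB
    have one : 1 ∈ A + B := by
      obtain ⟨a, ha, b, hb, h⟩ : 1 ∈ B + B := hB ▸ Set.mem_univ 1
      simp only at h
      rcases (by omega : a = 1 ∨ b = 1) with rfl | rfl
      · exact ⟨0, Or.inl rfl, 1, ha, rfl⟩
      · exact ⟨0, Or.inl rfl, 1, hb, rfl⟩
    have c1 : ∀ n, 1 ≤ n → 1 ≤ ((Ioc 0 n).filter (· ∈ A + B)).card := fun n hn =>
      card_pos.2 ⟨1, mem_filter.2 ⟨mem_Ioc.2 ⟨one_pos, hn⟩, one⟩⟩
    have c2 : ∀ u, 2 ≤ u → (u + 1) ^ 3 ≤ 27 * ((Ioc 0 (4 * u ^ 3)).filter (· ∈ A + B)).card := by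
      intro u hu
      induction u, hu using Nat.le_induction with
      | base => have := c1 (4 * 2 ^ 3) (by norm_num); omega
      | succ u hu ih =>
        obtain ⟨R, hR, hRB⟩ := basis B hB (P u)
        have p1 := h1 u (by omega)
        have p2 := h2 u (by omega)
        have s1 := sumset (hP u (by omega)) (by omega) (4 * u ^ 3 + 1) R hR
        have s2 : S u + R ⊆ (Ioc (4 * u ^ 3) (4 * (u + 1) ^ 3)).filter (· ∈ A + B) := by
          intro m hm
          obtain ⟨a, ha, r, hr, rfl⟩ := mem_add.1 hm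
          refine mem_filter.2 ⟨?_, a, Or.inr (Or.inr ⟨u, hu, ha⟩), r, (hRB r hr).1, rfl⟩
          obtain ⟨k, hk, rfl⟩ := mem_image.1 ha
          have := et_lt (mem_range.1 hk)
          have := (hRB r hr).2
          have : P u ^ 2 ≤ (2 * u) ^ 2 := by gcongr
          exact mem_Ioc.2 ⟨by omega, by nlinarith⟩
        have s3 := card_le_card s2
        have s4 : u ^ 2 ≤ P u ^ 2 := by gcongr
        rw [← Ioc_union_Ioc_eq_Ioc (Nat.zero_le (4 * u ^ 3)) (by gcongr; omega), filter_union,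
          card_union_of_disjoint (disjoint_filter_filter (Ioc_disjoint_Ioc_of_le le_rfl))]
        change P u ^ 2 ≤ 2 * (S u + R).card at s1
        nlinarith
    refine lt_of_lt_of_le (b := 1 / 108) (by norm_num) (le_schnirelmannDensity_iff.2 fun n hn => ?_)
    rw [div_le_div_iff₀ (by norm_num) (by positivity)]
    have : 1 * n ≤ ((Ioc 0 n).filter (· ∈ A + B)).card * 108 := by
      by_cases h : n < 32
      · have := c1 n hn; omega
      · have u1 : Nat.nthRoot 3 (n / 4) ^ 3 ≤ n / 4 := (Nat.le_nthRoot_iff (by norm_num)).1 le_rfl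
        have u2 := Nat.lt_pow_nthRoot_add_one (n := 3) (by norm_num) (n / 4)
        have u3 := c2 (Nat.nthRoot 3 (n / 4)) ((Nat.le_nthRoot_iff (by norm_num)).2 (by omega))
        have u4 := card_le_card (filter_subset_filter (· ∈ A + B)
          (Ioc_subset_Ioc_right (a := 0) (show 4 * Nat.nthRoot 3 (n / 4) ^ 3 ≤ n by omega)))
        omega
    exact_mod_cast this

end Pool.Agent.Results.MP_b92640_nt.Exists
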